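import Pool.Agent.H202Z.RR.Main

open Matrix Pool.Agent.H202Z.RR

namespace Pool.Agent.Results.MP_6eb00f_an.UpperFails

/-- The upper half of the Recht-Re inequality fails: for `m = n = d = 6` there are real positive
semidefinite matrices `A 1, ..., A 6` with `A 1 + ... + A 6 ≤ 6 I` in the Loewner order and a unit
vector `v` with `vᵀ S_6 v > 6! / 0!`; in particular `S_6 ≤ 6! I` fails. -/
theorem result :
    ∃ (m n d : ℕ) (A : Fin n → Matrix (Fin d) (Fin d) ℝ),
      m = 6 ∧ n = 6 ∧ d = 6 ∧ (∀ i, (A i).PosSemidef) ∧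
      ((n : ℝ) • (1 : Matrix (Fin d) (Fin d) ℝ) - ∑ i, A i).PosSemidef ∧
      (∃ v : Fin d → ℝ, v ⬝ᵥ v = 1 ∧
        (n.factorial : ℝ) / ((n - m).factorial : ℝ) < v ⬝ᵥ (S m A *ᵥ v)) ∧
      ¬ (((n.factorial : ℝ) / ((n - m).factorial : ℝ)) • (1 : Matrix (Fin d) (Fin d) ℝ)
          - S m A).PosSemidef := by
  have e : ((Nat.factorial 6 : ℕ) : ℝ) / (((6 - 6 : ℕ).factorial : ℕ) : ℝ) = 720 := by
    norm_num [Nat.factorial]
  refine ⟨6, 6, 6, A, rfl, rfl, rfl, A_psd, slack_psd, ⟨Pi.single 0 1, by simp, ?_⟩, ?_⟩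
  · rw [e]; exact val
  · intro h
    have h2 := h.dotProduct_mulVec_nonneg (Pi.single 0 1)
    have h3 := val
    rw [e, star_trivial, Matrix.sub_mulVec, dotProduct_sub, Matrix.smul_mulVec, Matrix.one_mulVec,
      dotProduct_smul] at h2
    simp only [single_one_dotProduct, Pi.single_eq_same, smul_eq_mul, mul_one] at h2 h3
    linarith

end Pool.Agent.Results.MP_6eb00f_an.UpperFails
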